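import Pool.Agent.H19.KL.Stmts

set_option autoImplicit false

open MeasureTheory Set
open scoped ContDiff

namespace Pool.Agent.H19.KL

open Pool.Agent.H84 Pool.Agent.H84.Sym Pool.Agent.H84.Sym.P2x Pool.Agent.H84.Sym.C29

namespace BLWx

variable {E : Type} [NormedAddCommGroup E] [InnerProductSpace ℝ E]

theorem gc_inner (w : E) : GC (fun x : E => (inner ℝ x w : ℝ)) := by
  refine ⟨continuous_id.inner continuous_const, ?_⟩
  have h := Gr.mul (Gr.nrm (H := E)) (Gr.of_bdd (H := E) (F := fun _ => ‖w‖) (A := |‖w‖|)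
    fun _ => le_rfl)
  refine Gr.of_le h fun x => ?_
  rw [abs_of_nonneg (mul_nonneg (norm_nonneg x) (norm_nonneg w))]
  exact abs_real_inner_le_norm x w

theorem sq_aux {a b B S c : ℝ} (hB : 0 < B) (h : B * b ^ 2 = S + c) :
    a ^ 2 / B - 2 * (a * b) + (c + S) = (a - B * b) ^ 2 / B := by
  rw [eq_div_iff hB.ne']
  have e : (a ^ 2 / B - 2 * (a * b) + (c + S)) * B = a ^ 2 - 2 * (a * b) * B + (c + S) * B := by
    field_simp
  rw [e, add_comm c S, ← h]
  ring

/-- polarisation -/
theorem polar {ι : Type} [Fintype ι] (v : ι → E) (β : ι → ℝ)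
    (hβ : ∀ w, ∑ j, β j * (inner ℝ (v j) w) ^ 2 = ‖w‖ ^ 2) (w η : E) :
    ∑ j, β j * (inner ℝ (v j) w * inner ℝ (v j) η) = (inner ℝ w η : ℝ) := by
  have h1 := hβ (w + η)
  have h2 := hβ w
  have h3 := hβ η
  rw [norm_add_sq_real] at h1
  have e : ∑ j, β j * (inner ℝ (v j) (w + η)) ^ 2 = ∑ j, β j * (inner ℝ (v j) w) ^ 2 +
      2 * ∑ j, β j * (inner ℝ (v j) w * inner ℝ (v j) η) + ∑ j, β j * (inner ℝ (v j) η) ^ 2 := by
    rw [Finset.mul_sum, ← Finset.sum_add_distrib, ← Finset.sum_add_distrib]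
    refine Finset.sum_congr rfl fun j _ => ?_
    rw [inner_add_right]
    ring
  rw [e, h2, h3] at h1
  linarith

end BLWx

open BLWx in
theorem blw_thm (E : Type) [NormedAddCommGroup E] [InnerProductSpace ℝ E] [FiniteDimensional ℝ E]
    [MeasurableSpace E] [BorelSpace E] (h1 : HESStmt E) : BLWStmt E := by
  intro ι _ v U t C s hU hs c β hc hc0 hcH hβ0 hβ y w
  have h := adm_of_pot hU hs
  obtain ⟨-, -, hH⟩ := h1 U t C s hU hs
  rw [hH y w]
  have hPq := pot_add_quad hU hs.le y
  have hV : Pot (np U s y) (t + s) (C + s * (1 + ‖y‖)) := np_pot hPq.1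
  have := prob_np h y
  have hb : ∀ j x, 0 < c j x + s * β j := fun j x => add_pos (hc0 j x) (mul_pos hs (hβ0 j))
  set q : E → ℝ := fun x => ∑ j, (β j * inner ℝ (v j) w) ^ 2 / (c j x + s * β j) with hq
  have hqc : Continuous q := continuous_finsetSum _ fun j _ =>
    continuous_const.div ((hc j).add continuous_const) fun x => (hb j x).ne'
  have hqg : Gr q := by
    refine Gr.of_bdd (A := ∑ j, (β j * inner ℝ (v j) w) ^ 2 / (s * β j)) fun x => ?_
    rw [abs_of_nonneg (Finset.sum_nonneg fun j _ => div_nonneg (sq_nonneg _) (hb j x).le)]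
    refine Finset.sum_le_sum fun j _ => ?_
    exact div_le_div_of_nonneg_left (sq_nonneg _) (mul_pos hs (hβ0 j)) (by linarith [hc0 j x])
  have hk : ContDiff ℝ 1 (fun x : E => (inner ℝ x w : ℝ)) := contDiff_id.inner ℝ contDiff_const
  have hkd : ∀ x η : E, fderiv ℝ (fun x : E => (inner ℝ x w : ℝ)) x η = inner ℝ η w := by
    intro x η
    have hh : HasFDerivAt (fun x : E => (inner ℝ x w : ℝ)) (innerSL ℝ w) x := by
      have := (innerSL ℝ w).hasFDerivAt (x := x)
      have e : (fun x : E => (inner ℝ x w : ℝ)) = fun x => innerSL ℝ w x := by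
        funext x; rw [innerSL_apply_apply, real_inner_comm]
      rw [e]; exact this
    rw [hh.fderiv, innerSL_apply_apply, real_inner_comm]
  have hj : ∀ x η : E, (0:ℝ) ≤ q x - 2 * fderiv ℝ (fun x : E => (inner ℝ x w : ℝ)) x η +
      fderiv ℝ (fderiv ℝ (np U s y)) x η η := by
    intro x η
    rw [hkd, np_hess, hPq.2 x η, ← hβ η, real_inner_comm, ← polar v β hβ w η]
    have h2 := hcH x η
    have h3 : 0 ≤ ∑ j, ((β j * inner ℝ (v j) w) ^ 2 / (c j x + s * β j) -
        2 * (β j * (inner ℝ (v j) w * inner ℝ (v j) η)) +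
        (c j x * (inner ℝ (v j) η) ^ 2 + s * (β j * (inner ℝ (v j) η) ^ 2))) := by
      refine Finset.sum_nonneg fun j _ => ?_
      have hbj := hb j x
      have e : (β j * inner ℝ (v j) w) ^ 2 / (c j x + s * β j) -
          2 * (β j * (inner ℝ (v j) w * inner ℝ (v j) η)) +
          (c j x * (inner ℝ (v j) η) ^ 2 + s * (β j * (inner ℝ (v j) η) ^ 2)) =
          (β j * inner ℝ (v j) w - (c j x + s * β j) * inner ℝ (v j) η) ^ 2 /
            (c j x + s * β j) := by
        have h0 := sq_aux (a := β j * inner ℝ (v j) w) (b := inner ℝ (v j) η)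
          (B := c j x + s * β j) (S := s * (β j * (inner ℝ (v j) η) ^ 2))
          (c := c j x * (inner ℝ (v j) η) ^ 2) hbj (by ring)
        rw [← h0]
        ring
      rw [e]
      exact div_nonneg (sq_nonneg _) hbj.le
    rw [Finset.sum_add_distrib, Finset.sum_sub_distrib, Finset.sum_add_distrib,
      ← Finset.mul_sum, ← Finset.mul_sum] at h3
    linarith
  have hsec := sec_bl hV hk (gc_inner w).2 hqc hqg hj
  have hgc : ∀ j, GC (fun x => c j x * (s * β j) / (c j x + s * β j)) := by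
    intro j
    refine ⟨((hc j).mul continuous_const).div ((hc j).add continuous_const)
      fun x => (hb j x).ne', Gr.of_bdd (A := s * β j) fun x => ?_⟩
    have hsb := mul_pos hs (hβ0 j)
    rw [abs_of_nonneg (div_nonneg (mul_nonneg (hc0 j x).le hsb.le) (hb j x).le),
      div_le_iff₀ (hb j x)]
    nlinarith [hc0 j x]
  have e1 : ∑ j, av U s (fun x => c j x * (s * β j) / (c j x + s * β j)) y *
      (inner ℝ (v j) w) ^ 2 = ∫ x, (s * ‖w‖ ^ 2 - s ^ 2 * q x) ∂(mu (np U s y)) := by
    have e2 : ∀ x, s * ‖w‖ ^ 2 - s ^ 2 * q x =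
        ∑ j, c j x * (s * β j) / (c j x + s * β j) * (inner ℝ (v j) w) ^ 2 := by
      intro x
      rw [← hβ w, hq, Finset.mul_sum, Finset.mul_sum, ← Finset.sum_sub_distrib]
      refine Finset.sum_congr rfl fun j _ => ?_
      have hbj := (hb j x).ne'
      field_simp
      ring
    simp only [e2]
    rw [integral_finsetSum _ fun j _ => ((hgc j).integrable hV).mul_const _]
    refine Finset.sum_congr rfl fun j _ => ?_
    rw [integral_mul_const, int_np h]
  rw [e1]
  have hqi : Integrable q (mu (np U s y)) := GC.integrable ⟨hqc, hqg⟩ hV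
  rw [integral_sub (integrable_const _) (hqi.const_mul _)]
  rw [int_np h (fun x => (inner ℝ x w : ℝ) ^ 2), int_np h (fun x => (inner ℝ x w : ℝ))] at hsec
  have eq1 : ∫ x, s ^ 2 * q x ∂(mu (np U s y)) = s ^ 2 * ∫ x, q x ∂(mu (np U s y)) :=
    integral_const_mul _ _
  rw [eq1, integral_const, probReal_univ, one_smul]
  have hs2 := sq_nonneg s
  nlinarith [mul_le_mul_of_nonneg_left hsec hs2]

end Pool.Agent.H19.KL
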