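import Pool.Agent.H19.KL.Stmts

set_option autoImplicit false

open MeasureTheory Set
open scoped ContDiff

namespace Pool.Agent.H19.KL

open Pool.Agent.H84 Pool.Agent.H84.Sym Pool.Agent.H84.Sym.P2x Pool.Agent.H84.Sym.C29

namespace LIPx

variable {E : Type} [NormedAddCommGroup E] [InnerProductSpace ℝ E]

theorem gc_inner (w : E) : GC (fun x : E => (inner ℝ x w : ℝ)) := by
  refine ⟨continuous_id.inner continuous_const, ?_⟩
  have h := Gr.mul (Gr.nrm (H := E)) (Gr.of_bdd (H := E) (F := fun _ => ‖w‖) (A := |‖w‖|)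
    fun _ => le_rfl)
  refine Gr.of_le h fun x => ?_
  rw [abs_of_nonneg (mul_nonneg (norm_nonneg x) (norm_nonneg w))]
  exact abs_real_inner_le_norm x w

variable [FiniteDimensional ℝ E] [MeasurableSpace E] [BorelSpace E]

/-- Cauchy-Schwarz for posterior covariances -/
theorem cov_le {U : E → ℝ} {s : ℝ} (h : Adm U s) {X Z : E → ℝ} (hX : GC X) (hZ : GC Z) (y : E) :
    (av U s (fun x => X x * Z x) y - av U s X y * av U s Z y) ^ 2 ≤
      av U s (fun x => X x ^ 2) y * (av U s (fun x => Z x ^ 2) y - av U s Z y ^ 2) := by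
  set m := av U s Z y with hm
  have key : ∀ l : ℝ, 0 ≤ (av U s (fun x => Z x ^ 2) y - m ^ 2) * (l * l) +
      (-2 * (av U s (fun x => X x * Z x) y - av U s X y * m)) * l +
      av U s (fun x => X x ^ 2) y := by
    intro l
    have h0 := av_nonneg h (F := fun x => (X x - l * (Z x - m)) ^ 2) (fun x => sq_nonneg _) y
    have e0 : (fun x => (X x - l * (Z x - m)) ^ 2) = fun x => X x ^ 2 + ((-2 * l) * (X x * Z x) +
        ((2 * l * m) * X x + (l ^ 2 * Z x ^ 2 + ((-2 * l ^ 2 * m) * Z x + l ^ 2 * m ^ 2)))) := by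
      funext x; ring
    have g1 := hX.sq
    have g2 := (GC.const (H := E) (-2 * l)).mul (hX.mul hZ)
    have g3 := (GC.const (H := E) (2 * l * m)).mul hX
    have g4 := (GC.const (H := E) (l ^ 2)).mul hZ.sq
    have g5 := (GC.const (H := E) (-2 * l ^ 2 * m)).mul hZ
    have g6 := GC.const (H := E) (l ^ 2 * m ^ 2)
    rw [e0, av_add h g1 (g2.add (g3.add (g4.add (g5.add g6)))),
      av_add h g2 (g3.add (g4.add (g5.add g6))), av_add h g3 (g4.add (g5.add g6)),
      av_add h g4 (g5.add g6), av_add h g5 g6, av_const_mul h, av_const_mul h, av_const_mul h,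
      av_const_mul h, av_const h, ← hm] at h0
    nlinarith [h0]
  have := discrim_le_zero key
  unfold discrim at this
  nlinarith [this]

/-- the variance of a linear functional under the posterior measure -/
theorem var_le (h2 : VARStmt E) {U : E → ℝ} {t C s : ℝ} (hU : Pot U t C) (hs : 0 < s) (y w : E) :
    av U s (fun x => (inner ℝ x w : ℝ) ^ 2) y - av U s (fun x => inner ℝ x w) y ^ 2 ≤
      ‖w‖ ^ 2 / (t + s) := by
  have h := adm_of_pot hU hs
  have hp := np_pot (pot_add_quad hU hs.le y).1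
  have := h2 _ _ _ hp (prob_np h y) w
  rw [int_np h (fun x => (inner ℝ x w : ℝ) ^ 2), int_np h (fun x => (inner ℝ x w : ℝ))] at this
  exact this

theorem var_nonneg {U : E → ℝ} {s : ℝ} (h : Adm U s) {Z : E → ℝ} (hZ : GC Z) (y : E) :
    0 ≤ av U s (fun x => Z x ^ 2) y - av U s Z y ^ 2 := by
  have h1 := cov_le h (GC.const (H := E) 1) hZ y
  have e1 : av U s (fun _ : E => (1:ℝ) ^ 2) y = 1 := by
    have := av_const h (1:ℝ) y
    simpa using this
  have e2 : av U s (fun _ : E => (1:ℝ)) y = 1 := av_const h (1:ℝ) y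
  have e3 : av U s (fun x : E => (1:ℝ) * Z x) y = av U s Z y := by
    simp only [one_mul]
  rw [e1, e2, e3] at h1
  nlinarith [h1, sq_nonneg (av U s Z y - 1 * av U s Z y)]

end LIPx

open LIPx in
theorem lip_thm (E : Type) [NormedAddCommGroup E] [InnerProductSpace ℝ E] [FiniteDimensional ℝ E]
    [MeasurableSpace E] [BorelSpace E] (h1 : DAVStmt E) (h2 : VARStmt E) : LIPStmt E := by
  intro U t C s hU hs X hX hX0 hpos Γ hΓ hrev y z
  have h := adm_of_pot hU hs
  have ht := hU.pos
  obtain ⟨hC1, hD⟩ := h1 U s h X hX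
  have hdiff : Differentiable ℝ (av U s X) := hC1.differentiable (by norm_num)
  set L : E → ℝ := fun y => Real.log (av U s X y) with hL
  have hLd : ∀ y, HasFDerivAt L ((av U s X y)⁻¹ • fderiv ℝ (av U s X) y) y := fun y =>
    (hdiff y).hasFDerivAt.log (hpos y).ne'
  have hbound : ∀ y, ‖fderiv ℝ L y‖ ≤ Real.sqrt (Γ * s) := by
    intro y
    rw [(hLd y).fderiv]
    refine ContinuousLinearMap.opNorm_le_bound _ (Real.sqrt_nonneg _) fun w => ?_
    rw [smul_apply, smul_eq_mul, norm_mul, norm_inv, Real.norm_eq_abs, Real.norm_eq_abs,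
      abs_of_pos (hpos y), inv_mul_le_iff₀ (hpos y)]
    rw [hD y w]
    have hc := cov_le h hX (gc_inner w) y
    have hv := var_le h2 hU hs y w
    have hv0 := var_nonneg h (gc_inner w) y
    have hr := hrev y
    have hp := hpos y
    refine abs_le_of_sq_le_sq ?_ (by positivity)
    have e1 : (av U s X y * (Real.sqrt (Γ * s) * ‖w‖)) ^ 2 =
        Γ * s * av U s X y ^ 2 * ‖w‖ ^ 2 := by
      rw [mul_pow, mul_pow, Real.sq_sqrt (by positivity)]
      ring
    rw [e1, mul_pow]
    have e2 : ‖w‖ ^ 2 / (t + s) ≤ ‖w‖ ^ 2 / s := by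
      apply div_le_div_of_nonneg_left (sq_nonneg _) hs (by linarith)
    have e3 : (av U s (fun x => X x * inner ℝ x w) y -
        av U s X y * av U s (fun x => inner ℝ x w) y) ^ 2 ≤
        (Γ * av U s X y ^ 2) * (‖w‖ ^ 2 / s) := by
      refine hc.trans ?_
      refine mul_le_mul hr (hv.trans e2) hv0 (by positivity)
    calc s ^ 2 * (av U s (fun x => X x * inner ℝ x w) y -
        av U s X y * av U s (fun x => inner ℝ x w) y) ^ 2
        ≤ s ^ 2 * ((Γ * av U s X y ^ 2) * (‖w‖ ^ 2 / s)) :=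
          mul_le_mul_of_nonneg_left e3 (sq_nonneg s)
      _ = _ := by field_simp
  have := Convex.norm_image_sub_le_of_norm_fderiv_le (𝕜 := ℝ) (f := L) (s := Set.univ)
    (C := Real.sqrt (Γ * s)) (x := z) (y := y) (fun x _ => (hLd x).differentiableAt)
    (fun x _ => hbound x) convex_univ (Set.mem_univ _) (Set.mem_univ _)
  rwa [Real.norm_eq_abs] at this

end Pool.Agent.H19.KL
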